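import Pool.Agent.H31.FW.TargetsG
import Pool.Agent.H56.DW.BP

/-!
# BP: the bound for the first sum
-/

set_option autoImplicit false

open NumberField NumberField.InfinitePlace NumberField.Units
  NumberField.Units.dirichletUnitTheorem MeasureTheory Set Filter Complex
open scoped nonZeroDivisors ENNReal

namespace Pool.Agent.H22.FW.BP

open Pool.Agent.H25.HK Pool.Agent.H23.LB Pool.Agent.H23.LC Pool.Agent.H29.DW
open Pool.Agent.H28.RC (Rep ft idl)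
open Pool.Agent.H29.TC (dvs cq LC Gn)
open Pool.Agent.H31.FW
open Pool.Agent.H56.DW (ec_norm ek_norm one_le_Nf Nf_mul one_le_disc one_le_tor cw_le cw_nonneg
  one_le_dvs coe_mul_mono split Wt_bound sum_int_le)

/-- the numerical part -/
theorem numer' {n : ℕ} {ε C Cd c₀ w W s T B hR cv' DV d j q H Ci : ℝ} (hε : 0 < ε) (hε1 : ε ≤ 1)
    (hC : 0 ≤ C) (hc₀ : 0 < c₀) (hw : 1 ≤ w) (hcv : cv' ≤ w)
    (hs : 0 < s) (hT : 0 ≤ T) (hR0 : 0 ≤ hR) (hDV : 0 ≤ DV) (hd : 1 ≤ d) (hj : 1 ≤ j) (hq : 1 ≤ q)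
    (hH : 1 ≤ H) (hCi : 1 ≤ Ci) (hCd : 0 ≤ Cd) (hdvk : DV ≤ Cd * (j * q) ^ (ε / 2))
    (hHC : H ≤ 2 ^ n * Ci ^ (1 / 3 : ℝ)) (hW : c₀ * H⁻¹ ≤ W)
    (h : (w * W * s * T) ^ 2 ≤ C * B ^ 2 * (j * s ^ 2) * hR * cv' * DV *
      (d * j * q * H) ^ (ε / 2) * H⁻¹ * (1 + Real.sqrt q / j)) :
    T ^ 2 ≤ (c₀⁻¹ ^ 2 * C * Cd * 2 ^ n * 2 ^ n) * B ^ 2 * (d * (j * q) * Ci) ^ ε *
      (hR * (j + Real.sqrt q) * Ci ^ (1 / 3 : ℝ)) := by
  have hH0 : 0 < H := by linarith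
  have hj0 : 0 < j := by linarith
  have hq0 : 0 < q := by linarith
  have hd0 : 0 < d := by linarith
  have hw0 : 0 < w := by linarith
  have hCi0 : 0 < Ci := by linarith
  have hsq : 0 ≤ Real.sqrt q := Real.sqrt_nonneg _
  have hP0 : 0 ≤ (d * j * q * H) ^ (ε / 2) := Real.rpow_nonneg (by positivity) _
  have hC3 : 0 < Ci ^ (1 / 3 : ℝ) := Real.rpow_pos_of_pos hCi0 _
  -- divide
  have h1 : (w * (c₀ * H⁻¹) * s * T) ^ 2 ≤ (w * W * s * T) ^ 2 := by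
    have : 0 < c₀ * H⁻¹ := by positivity
    gcongr
  have h2 : C * B ^ 2 * (j * s ^ 2) * hR * cv' * DV *
      (d * j * q * H) ^ (ε / 2) * H⁻¹ * (1 + Real.sqrt q / j) ≤
      C * B ^ 2 * (j * s ^ 2) * hR * w ^ 2 * DV *
      (d * j * q * H) ^ (ε / 2) * H⁻¹ * (1 + Real.sqrt q / j) := by
    have : cv' ≤ w ^ 2 := by nlinarith
    gcongr
  have h3 := (h1.trans h).trans h2
  have h4 : T ^ 2 ≤ c₀⁻¹ ^ 2 * (C * B ^ 2 * hR * DV * (d * j * q * H) ^ (ε / 2) * H *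
      (j + Real.sqrt q)) := by
    have e1 : (w * (c₀ * H⁻¹) * s * T) ^ 2 = (w ^ 2 * c₀ ^ 2 * H⁻¹ ^ 2 * s ^ 2) * T ^ 2 := by ring
    have e2 : C * B ^ 2 * (j * s ^ 2) * hR * w ^ 2 * DV *
      (d * j * q * H) ^ (ε / 2) * H⁻¹ * (1 + Real.sqrt q / j) =
        (w ^ 2 * c₀ ^ 2 * H⁻¹ ^ 2 * s ^ 2) *
        (c₀⁻¹ ^ 2 * (C * B ^ 2 * hR * DV * (d * j * q * H) ^ (ε / 2) * H *
      (j + Real.sqrt q))) := by
      field_simp
    rw [e1, e2] at h3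
    exact le_of_mul_le_mul_left h3 (by positivity)
  have hY1 : 1 ≤ d * (j * q) * Ci := by
    have a2 : 1 ≤ j * q := one_le_mul_of_one_le_of_one_le hj hq
    have a3 : 1 ≤ d * (j * q) := one_le_mul_of_one_le_of_one_le hd a2
    exact one_le_mul_of_one_le_of_one_le a3 hCi
  have h6 : (j * q) ^ (ε / 2) * (d * j * q * H) ^ (ε / 2) ≤ 2 ^ n * (d * (j * q) * Ci) ^ ε := by
    have e2 : d * j * q * H ≤ 2 ^ n * (d * (j * q) * Ci) := by
      have : Ci ^ (1 / 3 : ℝ) ≤ Ci := by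
        conv_rhs => rw [← Real.rpow_one Ci]
        exact Real.rpow_le_rpow_of_exponent_le hCi (by norm_num)
      have : H ≤ 2 ^ n * Ci := hHC.trans (by gcongr)
      calc d * j * q * H ≤ d * j * q * (2 ^ n * Ci) := by gcongr
        _ = _ := by ring
    have e3 : j * q ≤ d * (j * q) * Ci := by
      calc j * q = 1 * (j * q) * 1 := by ring
        _ ≤ d * (j * q) * Ci := by gcongr
    have e4 : (d * j * q * H) ^ (ε / 2) ≤ 2 ^ n * (d * (j * q) * Ci) ^ (ε / 2) := by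
      calc (d * j * q * H) ^ (ε / 2) ≤ (2 ^ n * (d * (j * q) * Ci)) ^ (ε / 2) :=
            Real.rpow_le_rpow (by positivity) e2 (by linarith)
        _ = ((2 : ℝ) ^ n) ^ (ε / 2) * (d * (j * q) * Ci) ^ (ε / 2) :=
            Real.mul_rpow (by positivity) (by positivity)
        _ ≤ ((2 : ℝ) ^ n) ^ (1 : ℝ) * (d * (j * q) * Ci) ^ (ε / 2) := by
            gcongr
            · exact one_le_pow₀ (by norm_num)
            · linarith
        _ = _ := by rw [Real.rpow_one]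
    have e5 : (j * q) ^ (ε / 2) ≤ (d * (j * q) * Ci) ^ (ε / 2) :=
      Real.rpow_le_rpow (by positivity) e3 (by linarith)
    calc (j * q) ^ (ε / 2) * (d * j * q * H) ^ (ε / 2)
        ≤ (d * (j * q) * Ci) ^ (ε / 2) * (2 ^ n * (d * (j * q) * Ci) ^ (ε / 2)) := by
          gcongr
      _ = 2 ^ n * ((d * (j * q) * Ci) ^ (ε / 2) * (d * (j * q) * Ci) ^ (ε / 2)) := by ring
      _ = 2 ^ n * (d * (j * q) * Ci) ^ ε := by
          rw [← Real.rpow_add (by linarith)]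
          congr 2
          ring
  have hB2 : 0 ≤ B ^ 2 := sq_nonneg B
  have hY0 : 0 ≤ (d * (j * q) * Ci) ^ ε := Real.rpow_nonneg (by positivity) _
  calc T ^ 2 ≤ c₀⁻¹ ^ 2 * (C * B ^ 2 * hR * DV * (d * j * q * H) ^ (ε / 2) * H *
      (j + Real.sqrt q)) := h4
    _ ≤ c₀⁻¹ ^ 2 * (C * B ^ 2 * hR * (Cd * (j * q) ^ (ε / 2)) * (d * j * q * H) ^ (ε / 2) *
        (2 ^ n * Ci ^ (1 / 3 : ℝ)) * (j + Real.sqrt q)) := by
        gcongr
    _ = c₀⁻¹ ^ 2 * C * Cd * 2 ^ n * B ^ 2 * ((j * q) ^ (ε / 2) * (d * j * q * H) ^ (ε / 2)) *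
        (hR * (j + Real.sqrt q) * Ci ^ (1 / 3 : ℝ)) := by ring
    _ ≤ c₀⁻¹ ^ 2 * C * Cd * 2 ^ n * B ^ 2 * (2 ^ n * (d * (j * q) * Ci) ^ ε) *
        (hR * (j + Real.sqrt q) * Ci ^ (1 / 3 : ℝ)) := by
        gcongr
    _ = _ := by ring

section

variable {K : Type} [Field K] [NumberField K]

theorem f_ne {l g q : Ideal (𝓞 K)} (h : GQ l g q) : l * (g * q) ≠ ⊥ := by
  rw [← Ideal.zero_eq_bot]
  exact mul_ne_zero h.l_ne (mul_ne_zero h.g_ne h.q_ne)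

theorem gq_ne {l g q : Ideal (𝓞 K)} (h : GQ l g q) : g * q ≠ ⊥ := by
  rw [← Ideal.zero_eq_bot]
  exact mul_ne_zero h.g_ne h.q_ne

theorem j_ne {l g q : Ideal (𝓞 K)} (h : GQ l g q) : l * g ≠ ⊥ := by
  rw [← Ideal.zero_eq_bot]
  exact mul_ne_zero h.l_ne h.g_ne

theorem Nf_f (l g q : Ideal (𝓞 K)) : Nf K (l * (g * q)) = Nf K (l * g) * Nf K q := by
  rw [Nf_mul, Nf_mul, Nf_mul]
  ring

theorem PrG_gq {l g q : Ideal (𝓞 K)} (h : GQ l g q) {χ : HG K (l * (g * q))}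
    (hχ : PrG q χ) : PrG (g * q) χ := by
  intro P hP hgq
  rcases hP.mul_le.1 hgq with h1 | h1
  · exact hχ P hP (h.rad P hP h1)
  · exact hχ P hP h1

/-- the coefficients are products of a periodic function and a function with bounded
correlations -/
theorem local_struct {n : ℕ} (hn : Module.finrank ℚ K = n) (hSG : Q_SG) (hCC : Q_CC)
    (hGX : Pool.Agent.H29.TC.T_GX) {l g q : Ideal (𝓞 K)} (h : GQ l g q)
    (χ : HG K (l * (g * q))) (hχ : PrG q χ) (M : FI K) (hM : M ≠ 0) :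
    ∃ f c : K → ℂ, CorQ (l * g) q M f (DQ n (g * q)) ∧ (∀ x ∈ M, ‖c x‖ ≤ 1) ∧
      (∀ x ∈ M, ∀ t ∈ ((l * g : Ideal (𝓞 K)) : FI K) * M, c (x + t) = c x) ∧
      ∀ x ∈ M, cg χ M x = c x * f x := by
  have hf := f_ne h
  obtain ⟨η, hη, hc⟩ := hSG K l (g * q) h.l_ne (gq_ne h) h.cop χ (PrG_gq h hχ)
  obtain ⟨x₀, hx₀⟩ := hGX K _ M hf hM
  obtain ⟨c, hc1, hc2, hc3⟩ := hc M x₀ hM hx₀
  have hle : ((l * g : Ideal (𝓞 K)) : FI K) * M ≤ (l : FI K) * M :=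
    coe_mul_mono Ideal.mul_le_left M
  exact ⟨cq (g * q) η M x₀, c, (hCC n K hn l g q h η hη M x₀ hM hx₀).1, hc1,
    fun x hx t ht => hc2 x hx t (hle ht), hc3⟩

theorem X_facts {n : ℕ} (hn : Module.finrank ℚ K = n) {l g q : Ideal (𝓞 K)} (h : GQ l g q)
    (χ : HG K (l * (g * q))) (t : ℝ) :
    1 ≤ Real.sqrt (|(discr K : ℝ)| * Nf K (l * (g * q)) * Ci χ.k χ.ν t) ∧
    Real.sqrt (|(discr K : ℝ)| * Nf K (l * (g * q)) * Ci χ.k χ.ν t) ^ 2 ≤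
      3 ^ n * (|(discr K : ℝ)| * Nf K (l * g) * Nf K q * HH (Hpar (cpar χ.k χ.ν t)) ^ 3) := by
  have h1 := one_le_disc (K := K)
  have h2 := one_le_Nf (f_ne h)
  have h3 := one_le_Ci χ.k χ.ν t
  have h4 := Ci_le hn χ.k χ.ν t χ.real_k
  have h5 : 1 ≤ |(discr K : ℝ)| * Nf K (l * (g * q)) * Ci χ.k χ.ν t :=
    one_le_mul_of_one_le_of_one_le (one_le_mul_of_one_le_of_one_le h1 h2) h3
  refine ⟨Real.one_le_sqrt.2 h5, ?_⟩
  rw [Real.sq_sqrt (by linarith)]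
  calc |(discr K : ℝ)| * Nf K (l * (g * q)) * Ci χ.k χ.ν t ≤
      |(discr K : ℝ)| * Nf K (l * (g * q)) * (3 ^ n * HH (Hpar (cpar χ.k χ.ν t)) ^ 3) := by
        gcongr
    _ = _ := by
      rw [Nf_f]
      ring

theorem one_le_DQ (hDF : Pool.Agent.H29.TC.T_DF) (n : ℕ) {f : Ideal (𝓞 K)} (hf : f ≠ ⊥) :
    1 ≤ DQ n f := by
  unfold DQ
  exact one_le_mul_of_one_le_of_one_le (one_le_pow₀ (by norm_num))
    (one_le_pow₀ (one_le_dvs hDF hf))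

theorem DV_le {n : ℕ} {ε Cd : ℝ} (hε : 0 < ε) (hDF : Pool.Agent.H29.TC.T_DF)
    (hCd : ∀ k : Ideal (𝓞 K), k ≠ ⊥ → ((dvs K k).card : ℝ) ≤ Cd * Nf K k ^ (ε / 6))
    {l g q : Ideal (𝓞 K)} (h : GQ l g q) :
    0 ≤ Cd ∧ (dvs K q).card * DQ n (g * q) ≤
      (4 ^ (n * (n + 1)) * Cd ^ 3) * (Nf K (l * g) * Nf K q) ^ (ε / 2) := by
  have hl := one_le_Nf h.l_ne
  have hg := one_le_Nf h.g_ne
  have hq := one_le_Nf h.q_ne
  have hCd0 : 0 ≤ Cd := by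
    by_contra hneg
    have h5 : 0 < Nf K q ^ (ε / 6) := Real.rpow_pos_of_pos (by linarith) _
    have h6 : Cd * Nf K q ^ (ε / 6) < 0 := mul_neg_of_neg_of_pos (not_le.1 hneg) h5
    have h7 := hCd q h.q_ne
    have h8 : (0 : ℝ) ≤ ((dvs K q).card : ℝ) := Nat.cast_nonneg _
    linarith
  refine ⟨hCd0, ?_⟩
  set N : ℝ := Nf K (l * g) * Nf K q with hN
  have hNeq : N = Nf K l * (Nf K g * Nf K q) := by
    rw [hN, Nf_mul]
    ring
  have hgq1 : 1 ≤ Nf K g * Nf K q := one_le_mul_of_one_le_of_one_le hg hq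
  have hN1 : 1 ≤ N := by
    rw [hNeq]
    exact one_le_mul_of_one_le_of_one_le hl hgq1
  have a1 : Nf K q ≤ N := by
    rw [hNeq]
    calc Nf K q = 1 * (1 * Nf K q) := by ring
      _ ≤ _ := by gcongr
  have a2 : Nf K (g * q) ≤ N := by
    rw [hNeq, Nf_mul]
    calc Nf K g * Nf K q = 1 * (Nf K g * Nf K q) := by ring
      _ ≤ _ := by gcongr
  have b1 : ((dvs K q).card : ℝ) ≤ Cd * N ^ (ε / 6) := by
    refine (hCd q h.q_ne).trans ?_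
    have : Nf K q ^ (ε / 6) ≤ N ^ (ε / 6) := Real.rpow_le_rpow (by linarith) a1 (by linarith)
    gcongr
  have b2 : ((dvs K (g * q)).card : ℝ) ≤ Cd * N ^ (ε / 6) := by
    refine (hCd (g * q) (gq_ne h)).trans ?_
    have : Nf K (g * q) ^ (ε / 6) ≤ N ^ (ε / 6) :=
      Real.rpow_le_rpow (by linarith [one_le_Nf (gq_ne h)]) a2 (by linarith)
    gcongr
  have e : N ^ (ε / 2) = N ^ (ε / 6) * (N ^ (ε / 6)) ^ 2 := by
    rw [← Real.rpow_natCast, ← Real.rpow_mul (by linarith), ← Real.rpow_add (by linarith)]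
    congr 1
    push_cast
    ring
  unfold DQ
  rw [e]
  have hN6 : 0 ≤ N ^ (ε / 6) := Real.rpow_nonneg (by linarith) _
  calc ((dvs K q).card : ℝ) * (4 ^ (n * (n + 1)) * ((dvs K (g * q)).card : ℝ) ^ 2)
      ≤ (Cd * N ^ (ε / 6)) * (4 ^ (n * (n + 1)) * (Cd * N ^ (ε / 6)) ^ 2) := by
        gcongr
    _ = _ := by ring

end

open scoped Classical in
theorem pf_BP (hUP : V_UP) (hWL : V_WL) (hBS : Q_BS) (hSG : Q_SG) (hCC : Q_CC) (hCG : U_CG)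
    (hGX : Pool.Agent.H29.TC.T_GX) (hDV : Pool.Agent.H29.TC.T_DV) (hDF : Pool.Agent.H29.TC.T_DF)
    (hRX : Pool.Agent.H28.RC.T_RX) (hSY : Pool.Agent.H23.LB.T_SY) : Q_BP := by
  intro n hn ε κ hε hε1 hκ hκε
  obtain ⟨C, hC0, hC⟩ := hBS n hn (ε / 2) κ (by linarith) (by linarith) hκ (by linarith)
  obtain ⟨c₀, hc₀, hc⟩ := hWL n hn
  obtain ⟨Cd, hCd⟩ := hDV n (ε / 6) (by linarith)
  refine ⟨c₀⁻¹ ^ 2 * C * (4 ^ (n * (n + 1)) * |Cd| ^ 3) * 2 ^ n * 2 ^ n, by positivity,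
    fun K _ _ hK l g q hG χ hχ t B v hB hWt => ?_⟩
  have hf := f_ne hG
  have hj := j_ne hG
  obtain ⟨D⟩ := hSY K (l * (g * q)) hf
  have hloc := fun i : D.ι => local_struct hK hSG hCC hGX hG χ hχ (D.M i) (D.reps.1 i)
  choose f c hcor hc1 hcp hcc using hloc
  have hX := fun i : D.ι => hRX K (l * g) (D.M i) hj (D.reps.1 i)
  choose X₁ hX₁ hcard using hX
  have hd1 := one_le_disc (K := K)
  have hj1 := one_le_Nf hj
  have hq1 := one_le_Nf hG.q_ne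
  have hD1 := one_le_DQ hDF n (gq_ne hG)
  have hDVq := one_le_dvs hDF hG.q_ne
  obtain ⟨hX1, hX2⟩ := X_facts hK hG χ t
  have hH1 : 1 ≤ HH (Hpar (cpar χ.k χ.ν t)) := one_le_HH fun v => Hpar_one_le _ v
  have key := hC K hK D.ι D.M D.reps (l * g) q (DQ n (g * q)) f X₁ (cpar χ.k χ.ν t)
    (Hpar (cpar χ.k χ.ν t)) _ B (Nf K (l * g)) v (fun i => cg χ (D.M i)) true hj hG.q_ne hD1 hcor
    hX₁ (Prm_cpar _ _ _) hX1 hX2 hB hWt (by linarith)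
    (fun i => ⟨1, (hCG K _ χ (D.M i) hf (D.reps.1 i)).2.1⟩)
    (fun i p y ω _ _ => by
      have := split (l * g) (D.M i) (f i) (c i) (cg χ (D.M i)) (X₁ i) (hX₁ i) (hc1 i) (hcp i)
        (hcc i) (cpar χ.k χ.ν t) (Hpar (cpar χ.k χ.ν t)) p y ω
      rw [hcard i] at this
      exact this)
  have hU := hUP K _ hf χ D.ι D.M D.reps (cpar χ.k χ.ν t) (Hpar (cpar χ.k χ.ν t)) t v
    (Prm_cpar _ _ _) (Wt_bound hWt)
  have hS : ENNReal.ofReal ‖(torsionOrder K : ℂ) *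
      WH K (cpar χ.k χ.ν t) (Hpar (cpar χ.k χ.ν t)) χ.k χ.ν t *
        ∑' J : NZI K, χ.ψ J.1 * v (Ideal.absNorm J.1) *
          (Ideal.absNorm J.1 : ℂ) ^ (-(t * I : ℂ))‖ ≤
      ∑ i, ∫⁻ u in Fd K ×ˢ (univ : Set ℝ) ×ˢ An K,
        ENNReal.ofReal ‖∑' x : {x : K // x ∈ D.M i ∧ x ≠ 0}, cg χ (D.M i) x *
          v (Ideal.absNorm (idl K (D.M i) x)) *
            Wg (cpar χ.k χ.ν t) (Hpar (cpar χ.k χ.ν t)) pb x (yM K (D.M i) u.2.1 (zs true u.1))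
              (om true u.2.2)‖ := by
    rw [← hU]
    refine sum_int_le _ _ _ _ fun i a => ?_
    have e : ((t : ℂ) * (a.2.1 : ℂ)) = ((t * a.2.1 : ℝ) : ℂ) := by push_cast; rfl
    rw [norm_mul, norm_mul, norm_mul (ek _ _), ec_norm, ek_norm, e,
      Complex.norm_exp_ofReal_mul_I, one_mul, one_mul, one_mul]
  have hfin := (pow_le_pow_left₀ (zero_le) hS 2).trans key
  rw [← ENNReal.ofReal_pow (norm_nonneg _)] at hfin
  have hHR : 0 ≤ (classNumber K : ℝ) * regulator K :=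
    mul_nonneg (Nat.cast_nonneg _) (regulator_pos K).le
  have hP0 : 0 ≤ (|(discr K : ℝ)| * Nf K (l * g) * Nf K q * HH (Hpar (cpar χ.k χ.ν t))) ^
      (ε / 2) := Real.rpow_nonneg (by positivity) _
  rw [ENNReal.ofReal_le_ofReal_iff (by
    have := cw_nonneg (K := K)
    positivity)] at hfin
  have hnorm : ‖(torsionOrder K : ℂ) *
      WH K (cpar χ.k χ.ν t) (Hpar (cpar χ.k χ.ν t)) χ.k χ.ν t *
        ∑' J : NZI K, χ.ψ J.1 * v (Ideal.absNorm J.1) *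
          (Ideal.absNorm J.1 : ℂ) ^ (-(t * I : ℂ))‖ = (torsionOrder K : ℝ) *
      ‖WH K (cpar χ.k χ.ν t) (Hpar (cpar χ.k χ.ν t)) χ.k χ.ν t‖ * 1 *
        ‖∑' J : NZI K, χ.ψ J.1 * v (Ideal.absNorm J.1) *
          (Ideal.absNorm J.1 : ℂ) ^ (-(t * I : ℂ))‖ := by
    rw [norm_mul, norm_mul, Complex.norm_natCast, mul_one]
  rw [hnorm] at hfin
  obtain ⟨hCd0, hDVle⟩ := DV_le (n := n) hε hDF (fun k hk => hCd K hK k hk) hG
  rw [← abs_of_nonneg hCd0] at hDVle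
  rw [Nf_f]
  refine numer' hε hε1 hC0 hc₀ (one_le_tor (K := K)) (cw_le (K := K)) one_pos (norm_nonneg _) hHR
    (by positivity) hd1 hj1 hq1 hH1 (one_le_Ci χ.k χ.ν t) (by positivity) hDVle
    (HH_le hK χ.k χ.ν t) (hc K hK χ.k χ.ν t χ.norm_zero) ?_
  rw [one_pow, mul_one (Nf K (l * g))]
  exact hfin

end Pool.Agent.H22.FW.BP
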