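import Pool.Agent.H31.FW.TargetsL

/-!
# The complete sum in a finite ring, with a quadratic Gauss sum
-/

set_option autoImplicit false

open Finset

namespace Pool.Agent.H22.FW.LG

open Pool.Agent.H31.FW
open Pool.Agent.H29.TC (MC AC Stat unit_add_nil hom_sum stat_pair)

variable {R : Type} [CommRing R]

theorem unit_sub_nil {a k : R} (ha : IsUnit (a + k)) (hk : IsNilpotent k) : IsUnit a := by
  have h1 := unit_add_nil ha hk.neg
  rwa [add_neg_cancel_right] at h1

theorem nil_mul {z : R} (hz : IsNilpotent z) (r : R) : IsNilpotent (r * z) :=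
  Commute.isNilpotent_mul_left (Commute.all _ _) hz

/-- the quadratic phase -/
noncomputable def G (η θ : R → ℂ) (h u v z : R) : ℂ :=
  η (1 - h * (u * v) * z + h * (u ^ 2 * v) * z ^ 2) * θ z

/-- the shift by an element of `I` -/
theorem shift_q {I : Ideal R} {h : R} {η θ : R → ℂ} (hη : MC η) (hθ : AC θ)
    (hI : ∀ z ∈ I, IsNilpotent z)
    (h3 : ∀ z ∈ I, ∀ z' ∈ I, ∀ z'' ∈ I, h * (z * z' * z'') = 0) {x u v : R} (hu : x * u = 1)
    (hv : (x + h) * v = 1) {z : R} (hz : z ∈ I) :
    η (x + z + h) * (starRingEnd ℂ) (η (x + z)) * θ (x + z) =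
      (η (x + h) * (starRingEnd ℂ) (η x) * θ x) * G η θ h u v z := by
  have hxu : IsUnit x := IsUnit.of_mul_eq_one _ hu
  have hxz : IsUnit (x + z) := unit_add_nil hxu (hI z hz)
  have hz3 := h3 z hz z hz z hz
  have h1 : (x + z + h) * x = (x + z) * ((x + h) *
      (1 - h * (u * v) * z + h * (u ^ 2 * v) * z ^ 2)) := by
    linear_combination ((x + z) * h * u * z - (x + z) * h * u ^ 2 * z ^ 2) * hv +
      (h * z - h * z ^ 2 * u) * hu - u ^ 2 * hz3
  have h2 := congrArg η h1
  rw [hη.mul, hη.mul, hη.mul] at h2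
  have h4 := hη.conj_mul hxu
  have h5 := hη.conj_mul hxz
  unfold G
  rw [hθ.add]
  set w := η (1 - h * (u * v) * z + h * (u ^ 2 * v) * z ^ 2) with hw
  have h6 : η (x + z + h) * (starRingEnd ℂ) (η (x + z)) =
      η (x + h) * (starRingEnd ℂ) (η x) * w := by
    calc η (x + z + h) * (starRingEnd ℂ) (η (x + z))
        = (η (x + z + h) * η x) * ((starRingEnd ℂ) (η x) * (starRingEnd ℂ) (η (x + z))) := by
          linear_combination (-(η (x + z + h) * (starRingEnd ℂ) (η (x + z)))) * h4
      _ = (η (x + z) * (η (x + h) * w)) *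
          ((starRingEnd ℂ) (η x) * (starRingEnd ℂ) (η (x + z))) := by rw [h2]
      _ = _ := by
          linear_combination (η (x + h) * w * (starRingEnd ℂ) (η x)) * h5
  linear_combination (θ x * θ z) * h6

/-- the bilinear phase -/
noncomputable def B (η : R → ℂ) (h u v z z' : R) : ℂ := η (1 + 2 * h * (u ^ 2 * v) * (z * z'))

theorem G_add {I : Ideal R} {h : R} {η θ : R → ℂ} (hη : MC η) (hθ : AC θ)
    (h2 : ∀ z ∈ I, ∀ z' ∈ I, h ^ 2 * (z * z') = 0) (u v : R) {z z' : R} (hz : z ∈ I)
    (hz' : z' ∈ I) :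
    G η θ h u v (z + z') = G η θ h u v z * G η θ h u v z' * B η h u v z z' := by
  have h0 := h2 z hz z' hz'
  unfold G B
  have h1 : 1 - h * (u * v) * (z + z') + h * (u ^ 2 * v) * (z + z') ^ 2 =
      (1 - h * (u * v) * z + h * (u ^ 2 * v) * z ^ 2) *
      (1 - h * (u * v) * z' + h * (u ^ 2 * v) * z' ^ 2) *
      (1 + 2 * h * (u ^ 2 * v) * (z * z')) := by
    linear_combination (-((-(u * v) + u ^ 2 * v * z) * (-(u * v) + u ^ 2 * v * z') +
      2 * (u ^ 2 * v) * ((-(u * v) * z + u ^ 2 * v * z ^ 2) +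
        (-(u * v) * z' + u ^ 2 * v * z' ^ 2)) +
      2 * h * (u ^ 2 * v) * ((-(u * v) * z + u ^ 2 * v * z ^ 2) *
        (-(u * v) * z' + u ^ 2 * v * z' ^ 2)))) * h0
  rw [h1, hη.mul, hη.mul, hθ.add]
  ring

theorem G_norm {I : Ideal R} {h : R} {η θ : R → ℂ} (hη : MC η) (hθ : AC θ)
    (hI : ∀ z ∈ I, IsNilpotent z) (u v : R) {z : R} (hz : z ∈ I) : ‖G η θ h u v z‖ = 1 := by
  unfold G
  rw [norm_mul, hθ.norm, mul_one]
  apply hη.unit
  have h1 : 1 - h * (u * v) * z + h * (u ^ 2 * v) * z ^ 2 =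
      1 + (-(h * (u * v)) + h * (u ^ 2 * v) * z) * z := by ring
  rw [h1]
  exact (nil_mul (hI z hz) _).isUnit_one_add

theorem B_add {I : Ideal R} {h : R} {η : R → ℂ} (hη : MC η)
    (h2 : ∀ z ∈ I, ∀ z' ∈ I, h ^ 2 * (z * z') = 0) (u v : R) {z z' w : R} (hz : z ∈ I)
    (hz' : z' ∈ I) : B η h u v (z + z') w = B η h u v z w * B η h u v z' w := by
  have h0 := h2 z hz z' hz'
  unfold B
  rw [← hη.mul]
  congr 1
  linear_combination (-(4 * (u ^ 2 * v) ^ 2 * w ^ 2)) * h0

open scoped Classical in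
/-- the sum of the quadratic phase over `I` -/
theorem sum_G [Fintype R] {I J : Ideal R} {h : R} {η θ : R → ℂ} (hη : MC η) (hp : Pm η)
    (hθ : AC θ) (h2u : IsUnit (2 : R)) (hJI : J ≤ I) (hI : ∀ z ∈ I, IsNilpotent z)
    (h2 : ∀ z ∈ I, ∀ z' ∈ I, h ^ 2 * (z * z') = 0)
    (hJ : ∀ z ∈ J, ∀ z' ∈ I, h * (z * z') = 0)
    (hJ' : ∀ z ∈ I, (∀ z' ∈ I, h * (z * z') = 0) → z ∈ J) {x u v : R} (hu : x * u = 1)
    (hv : (x + h) * v = 1) :
    ‖∑ z : I, G η θ h u v z‖ ^ 2 =
      if (∀ z ∈ J, G η θ h u v z = 1) then (Nat.card I : ℝ) * Nat.card J else 0 := by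
  -- `|S|^2`
  have hc : ∀ z : I, G η θ h u v z * (starRingEnd ℂ) (G η θ h u v z) = 1 := by
    intro z
    rw [Complex.mul_conj, Complex.normSq_eq_norm_sq, G_norm hη hθ hI u v z.2]
    norm_num
  have h4 : (∑ z : I, G η θ h u v z) * (starRingEnd ℂ) (∑ z : I, G η θ h u v z) =
      ∑ z' : I, G η θ h u v z' * ∑ z : I, B η h u v z z' := by
    rw [map_sum, Finset.mul_sum]
    have h5 : ∀ z : I, (∑ w : I, G η θ h u v w) * (starRingEnd ℂ) (G η θ h u v z) =
        ∑ z' : I, G η θ h u v z' * B η h u v z z' := by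
      intro z
      rw [← Equiv.sum_comp (Equiv.addLeft z) (fun w : I => G η θ h u v w), Finset.sum_mul]
      refine Finset.sum_congr rfl fun z' _ => ?_
      have h6 : G η θ h u v ((Equiv.addLeft z) z' : I) =
          G η θ h u v z * G η θ h u v z' * B η h u v z z' := by
        have : (((Equiv.addLeft z) z' : I) : R) = (z : R) + z' := rfl
        rw [this]
        exact G_add hη hθ h2 u v z.2 z'.2
      rw [h6]
      linear_combination (G η θ h u v z' * B η h u v z z') * hc z
    rw [Finset.sum_congr rfl fun z _ => h5 z, Finset.sum_comm]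
    refine Finset.sum_congr rfl fun z' _ => ?_
    rw [Finset.mul_sum]
  -- the inner sums
  have h5 : ∀ z' : I, ∑ z : I, B η h u v z z' = if (z' : R) ∈ J then (Nat.card I : ℂ) else 0 := by
    intro z'
    split_ifs with hz
    · have h6 : ∀ z : I, B η h u v z z' = 1 := by
        intro z
        unfold B
        have h7 := hJ z' hz z z.2
        have h8 : 1 + 2 * h * (u ^ 2 * v) * ((z : R) * z') = 1 := by
          linear_combination (2 * (u ^ 2 * v)) * h7
        rw [h8, hη.one]
      rw [Finset.sum_congr rfl fun z _ => h6 z]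
      simp
    · refine hom_sum (fun z : I => B η h u v z z') (fun z w => ?_) ?_
      · have := B_add (w := (z' : R)) hη h2 u v z.2 w.2
        rw [← this]
        rfl
      · by_contra hc
        push Not at hc
        apply hz
        refine hJ' z' z'.2 fun z hz => ?_
        by_contra h0
        have h6 : 2 * (h * ((z' : R) * z)) ≠ 0 := by
          intro h7
          exact h0 ((h2u.mul_right_eq_zero).1 h7)
        obtain ⟨r, -, hr⟩ := hp _ h6
        apply hr
        have h7 := hc ⟨r * z * (x ^ 2 * (x + h)), I.mul_mem_right _ (I.mul_mem_left _ hz)⟩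
        rw [← h7]
        unfold B
        congr 1
        simp only
        have hk : x ^ 2 * (x + h) * (u ^ 2 * v) = 1 := by
          linear_combination (x ^ 2 * u ^ 2) * hv + (x * u + 1) * hu
        linear_combination (-(2 * h * r * z * z')) * hk
  -- the sum over `J`
  have h6 : (∑ z : I, G η θ h u v z) * (starRingEnd ℂ) (∑ z : I, G η θ h u v z) =
      (Nat.card I : ℂ) * ∑ z : J, G η θ h u v z := by
    rw [h4, Finset.mul_sum]
    have h7 : ∀ z' : I, G η θ h u v z' * ∑ z : I, B η h u v z z' =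
        if (z' : R) ∈ J then (Nat.card I : ℂ) * G η θ h u v z' else 0 := by
      intro z'
      rw [h5 z']
      split_ifs
      · ring
      · ring
    rw [Finset.sum_congr rfl fun z _ => h7 z, ← Finset.sum_filter]
    refine Finset.sum_bij' (fun z hz => (⟨(z : R), (Finset.mem_filter.1 hz).2⟩ : J))
      (fun z _ => (⟨(z : R), hJI z.2⟩ : I)) ?_ ?_ ?_ ?_ ?_
    · intro z hz
      exact Finset.mem_univ _
    · intro z hz
      exact Finset.mem_filter.2 ⟨Finset.mem_univ _, z.2⟩
    · intro z hz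
      rfl
    · intro z hz
      rfl
    · intro z hz
      rfl
  have h7 : ∑ z : J, G η θ h u v z =
      if (∀ z ∈ J, G η θ h u v z = 1) then (Nat.card J : ℂ) else 0 := by
    split_ifs with hs
    · rw [Finset.sum_congr rfl fun (z : J) _ => hs z z.2]
      simp
    · refine hom_sum (fun z : J => G η θ h u v z) (fun z w => ?_) ?_
      · have h8 := G_add hη hθ h2 u v (hJI z.2) (hJI w.2)
        have h9 : B η h u v z w = 1 := by
          unfold B
          have h10 := hJ z z.2 w (hJI w.2)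
          have h11 : 1 + 2 * h * (u ^ 2 * v) * ((z : R) * w) = 1 := by
            linear_combination (2 * (u ^ 2 * v)) * h10
          rw [h11, hη.one]
        rw [h9, mul_one] at h8
        rw [← h8]
        rfl
      · by_contra hc
        push Not at hc
        exact hs fun z hz => hc ⟨z, hz⟩
  have h8 : ((‖∑ z : I, G η θ h u v z‖ ^ 2 : ℝ) : ℂ) =
      (∑ z : I, G η θ h u v z) * (starRingEnd ℂ) (∑ z : I, G η θ h u v z) := by
    rw [Complex.mul_conj, Complex.normSq_eq_norm_sq]
  have h9 : ((‖∑ z : I, G η θ h u v z‖ ^ 2 : ℝ) : ℂ) =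
      ((if (∀ z ∈ J, G η θ h u v z = 1) then (Nat.card I : ℝ) * Nat.card J else 0 : ℝ) : ℂ) := by
    rw [h8, h6, h7]
    split_ifs
    · push_cast
      ring
    · push_cast
      ring
  exact_mod_cast h9

open scoped Classical in
theorem pf_LG : Q_LG := by
  intro R _ _ I J η θ h k hη hp hθ h2u hJI hI h2 h3 hJ hJ' hcard
  set F : R → ℂ := fun a => η (a + h) * (starRingEnd ℂ) (η a) * θ a with hF
  have hcs : cs η θ h = ∑ a, F a := rfl
  have hFn : ∀ a, ‖F a‖ ≤ 1 := by
    intro a
    simp only [hF, norm_mul, RCLike.norm_conj, hθ.norm, mul_one]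
    exact mul_le_one₀ (hη.norm_le _) (norm_nonneg _) (hη.norm_le _)
  have hprim : Pool.Agent.H29.TC.Prim η := by
    intro w hw
    by_contra h0
    obtain ⟨r, -, hr⟩ := hp w h0
    exact hr (hw r)
  have hIpos : (0 : ℝ) < Nat.card I := by exact_mod_cast Nat.card_pos
  have hJpos : (0 : ℝ) < Nat.card J := by exact_mod_cast Nat.card_pos
  have hJJ : ∀ z ∈ J, ∀ z' ∈ J, h * (z * z') = 0 := fun z hz z' hz' => hJ z hz z' (hJI hz')
  -- averaging
  have h1 : (Nat.card I : ℂ) * ∑ a, F a = ∑ a, ∑ z : I, F (a + z) := by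
    rw [Finset.sum_comm]
    have h2 : ∀ z : I, ∑ a, F (a + z) = ∑ a, F a := fun z =>
      Equiv.sum_comp (Equiv.addRight (z : R)) F
    simp only [h2, Finset.sum_const, Finset.card_univ, nsmul_eq_mul, Nat.card_eq_fintype_card]
  -- the inner sums
  set c : ℝ := Real.sqrt ((Nat.card I : ℝ) * Nat.card J) with hc
  have hc0 : 0 ≤ c := Real.sqrt_nonneg _
  have h4 : ∀ a, ‖∑ z : I, F (a + z)‖ ≤ if a ∈ Stat J h η θ then c else 0 := by
    intro a
    by_cases ha : IsUnit a ∧ IsUnit (a + h)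
    · obtain ⟨ha, hah⟩ := ha
      obtain ⟨u, hu⟩ := ha.exists_right_inv
      obtain ⟨v, hv⟩ := hah.exists_right_inv
      have h5 : ∀ z : I, F (a + z) = F a * G η θ h u v z := fun z =>
        shift_q hη hθ hI h3 hu hv z.2
      rw [Finset.sum_congr rfl fun z _ => h5 z, ← Finset.mul_sum, norm_mul]
      have h6 := sum_G hη hp hθ h2u hJI hI h2 hJ hJ' hu hv
      have h7 : (∀ z ∈ J, G η θ h u v z = 1) → a ∈ Stat J h η θ := by
        intro h8
        refine ⟨u * v, ?_, fun z hz => ?_⟩
        · linear_combination (a * u) * hv + hu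
        · have h9 := h8 z hz
          unfold G at h9
          rw [← h9]
          congr 2
          have h10 := hJJ z hz z hz
          linear_combination (-(u ^ 2 * v)) * h10
      have h8 : ‖∑ z : I, G η θ h u v z‖ ≤ if a ∈ Stat J h η θ then c else 0 := by
        by_cases hs : ∀ z ∈ J, G η θ h u v z = 1
        · rw [if_pos hs] at h6
          rw [if_pos (h7 hs)]
          exact Real.le_sqrt_of_sq_le h6.le
        · rw [if_neg hs] at h6
          have h9 : ‖∑ z : I, G η θ h u v z‖ = 0 := by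
            exact pow_eq_zero_iff (two_ne_zero) |>.1 h6
          rw [h9]
          split_ifs
          · exact hc0
          · exact le_refl 0
      calc ‖F a‖ * ‖∑ z : I, G η θ h u v z‖ ≤ 1 * ‖∑ z : I, G η θ h u v z‖ :=
            mul_le_mul_of_nonneg_right (hFn a) (norm_nonneg _)
        _ = ‖∑ z : I, G η θ h u v z‖ := one_mul _
        _ ≤ _ := h8
    · have h5 : ∀ z : I, F (a + z) = 0 := by
        intro z
        have hz := hI z z.2
        by_cases h6 : IsUnit (a + (z : R))
        · have h7 : IsUnit a := unit_sub_nil h6 hz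
          have h8 : ¬ IsUnit (a + (z : R) + h) := by
            intro h9
            apply ha
            refine ⟨h7, unit_sub_nil (k := (z : R)) ?_ hz⟩
            rwa [add_right_comm] at h9
          simp only [hF, hη.zero _ h8, zero_mul]
        · simp only [hF, hη.zero _ h6, map_zero, mul_zero, zero_mul]
      simp only [h5, Finset.sum_const_zero, norm_zero]
      split_ifs
      · exact hc0
      · exact le_refl 0
  have h5 : (Nat.card I : ℝ) * ‖cs η θ h‖ ≤ (Stat J h η θ).ncard * c := by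
    calc (Nat.card I : ℝ) * ‖cs η θ h‖ = ‖(Nat.card I : ℂ) * ∑ a, F a‖ := by
          rw [norm_mul, Complex.norm_natCast, hcs]
      _ = ‖∑ a, ∑ z : I, F (a + z)‖ := by rw [h1]
      _ ≤ ∑ a, ‖∑ z : I, F (a + z)‖ := norm_sum_le _ _
      _ ≤ ∑ a, if a ∈ Stat J h η θ then c else 0 := Finset.sum_le_sum fun a _ => h4 a
      _ = _ := by
          rw [← Finset.sum_filter, Finset.sum_const, nsmul_eq_mul]
          congr 2
          rw [Set.ncard_eq_toFinset_card']
          congr 1
          ext x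
          simp
  -- the square
  have h6 : ‖cs η θ h‖ ^ 2 * k ≤ ((Stat J h η θ).ncard : ℝ) ^ 2 := by
    have h7 : ((Nat.card I : ℝ) * ‖cs η θ h‖) ^ 2 ≤ ((Stat J h η θ).ncard * c) ^ 2 :=
      pow_le_pow_left₀ (by positivity) h5 2
    rw [mul_pow, mul_pow, hc, Real.sq_sqrt (by positivity)] at h7
    have h8 : (Nat.card I : ℝ) = k * Nat.card J := by exact_mod_cast hcard
    have h9 : ((Nat.card I : ℝ) * Nat.card J) * (‖cs η θ h‖ ^ 2 * k) ≤
        ((Nat.card I : ℝ) * Nat.card J) * ((Stat J h η θ).ncard : ℝ) ^ 2 := by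
      calc ((Nat.card I : ℝ) * Nat.card J) * (‖cs η θ h‖ ^ 2 * k)
          = (Nat.card I : ℝ) ^ 2 * ‖cs η θ h‖ ^ 2 := by rw [h8]; ring
        _ ≤ _ := h7
        _ = _ := by ring
    exact le_of_mul_le_mul_left h9 (mul_pos hIpos hJpos)
  by_cases he : (Stat J h η θ).Nonempty
  · right
    obtain ⟨y, hy⟩ := he
    obtain ⟨u, hu, -⟩ := id hy
    refine ⟨y, IsUnit.of_mul_eq_one ((y + h) * u) (by rw [← hu]; ring),
      IsUnit.of_mul_eq_one (y * u) (by rw [← hu]; ring), ?_⟩
    refine h6.trans (pow_le_pow_left₀ (Nat.cast_nonneg _) ?_ 2)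
    rw [Nat.cast_le]
    change _ ≤ Nat.card ({x : R | ∀ z ∈ J, z * h * ((x - y) * (x + y + h)) = 0} : Set R)
    rw [Nat.card_coe_set_eq]
    refine Set.ncard_le_ncard (fun x hx z hz => ?_) (Set.toFinite _)
    have h7 := stat_pair J h η θ hη hprim hJJ x y hx hy z hz
    rw [← h7]
    ring
  · left
    rw [Set.not_nonempty_iff_eq_empty.1 he, Set.ncard_empty, Nat.cast_zero, zero_mul] at h5
    have h7 : ‖cs η θ h‖ ≤ 0 := by
      by_contra hc'
      push Not at hc'
      exact absurd h5 (not_le.2 (mul_pos hIpos hc'))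
    exact norm_le_zero_iff.1 h7

end Pool.Agent.H22.FW.LG
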